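import Pool.Agent.V11201.SH.Z

set_option autoImplicit false

/-! The integers which share their finite Collatz height with a neighbour have the natural density `δ` of
the integers of finite height; among these they have relative density one. -/

namespace Pool.Agent.Results.MP_c516eb_nt.DensityOfPairs

open Filter Topology

/-- the Collatz function -/
def C (n : ℕ) : ℕ := if n % 2 = 0 then n / 2 else 3 * n + 1

/-- the height, the least `k ≥ 0` with `C^k(n) = 1`, and `⊤ = ∞` if there is none -/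
noncomputable def height (n : ℕ) : ℕ∞ := sInf {k : ℕ∞ | ∃ j : ℕ, C^[j] n = 1 ∧ k = j}

/-- `n` is paired: it has a finite height, and this is the height of `n - 1` (if `n ≥ 2`) or of `n + 1` -/
def Paired (n : ℕ) : Prop :=
  height n ≠ ⊤ ∧ ((2 ≤ n ∧ height n = height (n - 1)) ∨ height n = height (n + 1))

/-- the positive integers with the property `P` have the natural density `δ` -/
def HasDensity (P : ℕ → Prop) (δ : ℝ) : Prop :=
  Tendsto (fun N : ℕ => ({n : ℕ | 1 ≤ n ∧ n ≤ N ∧ P n}.ncard : ℝ) / N) atTop (𝓝 δ)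

/-- DENSITY OF THE PAIRED INTEGERS.
(1) All but at most `A r √((1 + log (1 + r)) log log N / log N) N` of the `n ≤ N` satisfy
`h(n) = h(n+1) = ... = h(n+r)` (finite or infinite).
(2) At most `A √(log log N / log N) N` of the integers `n ≤ N` of finite height are not paired.
(3) Let `δ` be the natural density of the integers of finite height; it exists, is positive, and it is `1` if
and only if all heights are finite. Then the paired integers have the natural density `δ`, the quotient of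
the numbers of the paired integers and of the integers of finite height up to `N` tends to `1`, and for every
`r` the `n` with `h(n) = h(n+1) = ... = h(n+r) < ∞` have the density `δ`.
(4) Hence Q1 holds if and only if `δ > 1/2`. -/
theorem result :
    (∃ A : ℝ, 0 < A ∧ ∀ N : ℕ, 16 ≤ N → ∀ r : ℕ,
      ({n : ℕ | 1 ≤ n ∧ n ≤ N ∧ ¬ ∀ j ≤ r, height (n + j) = height n}.ncard : ℝ) ≤
        A * r * √ ((1 + Real.log (1 + r)) * (Real.log (Real.log N) / Real.log N)) * N) ∧
    (∃ A : ℝ, 0 < A ∧ ∀ N : ℕ, 16 ≤ N →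
      ({n : ℕ | 1 ≤ n ∧ n ≤ N ∧ (height n ≠ ⊤ ∧ ¬ Paired n)}.ncard : ℝ) ≤
        A * √ (Real.log (Real.log N) / Real.log N) * N) ∧
    ∃ δ : ℝ, 0 < δ ∧ δ ≤ 1 ∧ (δ = 1 ↔ ∀ n : ℕ, 1 ≤ n → height n ≠ ⊤) ∧
      HasDensity (fun n => height n ≠ ⊤) δ ∧ HasDensity Paired δ ∧
      Tendsto (fun N : ℕ => ({n : ℕ | 1 ≤ n ∧ n ≤ N ∧ Paired n}.ncard : ℝ) /
        {n : ℕ | 1 ≤ n ∧ n ≤ N ∧ height n ≠ ⊤}.ncard) atTop (𝓝 1) ∧
      (∀ r : ℕ, HasDensity (fun n => height n ≠ ⊤ ∧ ∀ j ≤ r, height (n + j) = height n) δ) ∧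
      (1 / 2 < liminf (fun N : ℕ => ({n : ℕ | 1 ≤ n ∧ n ≤ N ∧ Paired n}.ncard : ℝ) / N) atTop ↔ 1 / 2 < δ) := by
  obtain ⟨A, hA, hb⟩ := Pool.Agent.V11201.SH.Z.block_rate
  obtain ⟨δ, h0, h1, h2, h3⟩ := Pool.Agent.V11201.SH.Z.reach_dens
  have hfin : ∀ (P : ℕ → Prop) (N : ℕ), {n : ℕ | 1 ≤ n ∧ n ≤ N ∧ P n}.Finite :=
    fun P N => (Set.finite_Icc 1 N).subset fun _ h => ⟨h.1, h.2.1⟩
  have hblock : ∀ r : ℕ, HasDensity (fun n => height n ≠ ⊤ ∧ ∀ j ≤ r, height (n + j) = height n) δ := by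
    intro r
    refine Pool.Agent.H499R2.CO.HD_congr (Pool.Agent.V11201.SH.Z.block_dens r) h3
      (fun n _ hn => ⟨fun h5 => ⟨h5, hn⟩, fun h5 => h5.1⟩)
  have hP : HasDensity Paired δ := by
    refine Pool.Agent.H499R2.CO.HD_congr (Pool.Agent.V11201.SH.Z.block_dens 1) h3
      (fun n _ hn => ⟨fun h5 => ⟨h5, Or.inr ?_⟩, fun h5 => h5.1⟩)
    have e1 : height (n + 1) = height n := hn 1 le_rfl
    exact e1.symm
  refine ⟨⟨A, hA, hb⟩, ⟨A * √ (1 + Real.log 2), by
    have : 0 < Real.log 2 := Real.log_pos (by norm_num)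
    positivity, fun N hN => ?_⟩, δ, h0, h1, h2, h3, hP, ?_, hblock, ?_⟩
  · have h4 := hb N hN 1
    have h5 : ({n : ℕ | 1 ≤ n ∧ n ≤ N ∧ (height n ≠ ⊤ ∧ ¬ Paired n)}.ncard : ℝ) ≤
        ({n : ℕ | 1 ≤ n ∧ n ≤ N ∧ ¬ ∀ j ≤ 1, height (n + j) = height n}.ncard : ℝ) := by
      exact_mod_cast Set.ncard_le_ncard (by
        rintro n ⟨a1, a2, a3, a4⟩
        refine ⟨a1, a2, fun h7 => a4 ⟨a3, Or.inr ?_⟩⟩
        exact (h7 1 le_rfl).symm) (hfin _ N)
    refine h5.trans (h4.trans (le_of_eq ?_))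
    have hl2 : 0 ≤ 1 + Real.log 2 := by
      have : 0 < Real.log 2 := Real.log_pos (by norm_num)
      linarith
    have e : (1 + Real.log (1 + ((1 : ℕ) : ℝ))) = 1 + Real.log 2 := by
      norm_num
    rw [e, Real.sqrt_mul hl2]
    push_cast
    unfold Pool.Agent.V11201.SH.lam
    ring
  · have h4 := hP.div h3 h0.ne'
    rw [div_self h0.ne'] at h4
    refine h4.congr' ?_
    filter_upwards [eventually_ge_atTop 1] with N hN
    have hNpos : (0 : ℝ) < N := by exact_mod_cast hN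
    simp only [Pi.div_apply]
    rw [div_div_div_cancel_right₀ hNpos.ne']
    rfl
  · have h5 : liminf (fun N : ℕ => ({n : ℕ | 1 ≤ n ∧ n ≤ N ∧ Paired n}.ncard : ℝ) / N) atTop = δ :=
      hP.liminf_eq
    rw [h5]

end Pool.Agent.Results.MP_c516eb_nt.DensityOfPairs
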